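import Mathlib
import Pool.Agent.R242.PF.Conf
import Pool.Agent.R242.PF.Der

/-!
# The Gaussian half-factor is not a Pólya frequency function

If all `12 × 12` minors `det [g (x i - y j)]` with increasing `x`, `y` were nonnegative then the
Hankel determinant `det [f^(i+j) (z)]` of the derivatives of every exponential tilt `f` of `g`
would be nonnegative at every `z` (the sign of the reversal of `12` columns is `+1`). At the point
`e^z = 10/3`, with the tilt normalised by `f'(z) = 0`, all derivatives divided by `f(z)` are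
rational numbers and the determinant is negative.
-/

set_option autoImplicit false

namespace Pool.Agent.Results.MP_41e59c_pr.NotPF12

/-- The Gaussian half-factor
`g(z) = (2/π)^{1/4} exp(π²/12 + z - ∫_0^{e^z} log(1+t)/t dt)`. -/
noncomputable def g (z : ℝ) : ℝ :=
  (2 / Real.pi) ^ (1 / 4 : ℝ) *
    Real.exp (Real.pi ^ 2 / 12 + z - ∫ t in (0 : ℝ)..Real.exp z, Real.log (1 + t) / t)

/-- `f` is a Pólya frequency function of order `k`. -/
def IsPF (k : ℕ) (f : ℝ → ℝ) : Prop :=
  Measurable f ∧ (∀ z, 0 ≤ f z) ∧ ∀ n ≤ k, ∀ x y : Fin n → ℝ, StrictMono x → StrictMono y →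
    0 ≤ (Matrix.of fun i j => f (x i - y j)).det

/-- `f` is a Pólya frequency function of infinite order. -/
def IsPFInfinite (f : ℝ → ℝ) : Prop := ∀ k : ℕ, 1 ≤ k → IsPF k f

open R242PF

theorem g_eq (z : ℝ) : g z = ff ((2 / Real.pi) ^ (1 / 4 : ℝ) * Real.exp (Real.pi ^ 2 / 12)) z *
    Real.exp ((1 - Real.log (13 / 3)) * z) := by
  unfold g ff J
  rw [mul_assoc, mul_assoc, ← Real.exp_add, ← Real.exp_add]
  congr 2
  ring

theorem ff_eq (z : ℝ) : ff ((2 / Real.pi) ^ (1 / 4 : ℝ) * Real.exp (Real.pi ^ 2 / 12)) z =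
    g z * Real.exp ((Real.log (13 / 3) - 1) * z) := by
  rw [g_eq, mul_assoc, ← Real.exp_add]
  have : (1 - Real.log (13 / 3)) * z + (Real.log (13 / 3) - 1) * z = 0 := by ring
  rw [this, Real.exp_zero, mul_one]

theorem sign_rev : Equiv.Perm.sign (Fin.revPerm : Equiv.Perm (Fin 12)) = 1 := by
  decide +kernel

theorem exists_neg : ∃ x y : Fin 12 → ℝ, StrictMono x ∧ StrictMono y ∧
    (Matrix.of fun i j => g (x i - y j)).det < 0 := by
  by_contra hcon
  push Not at hcon
  set c : ℝ := (2 / Real.pi) ^ (1 / 4 : ℝ) * Real.exp (Real.pi ^ 2 / 12) with hc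
  have hc0 : 0 < c := by
    have := Real.pi_pos
    positivity
  -- minors of the tilt
  have hpos : ∀ x y : Fin 12 → ℝ, StrictMono x → StrictMono y →
      0 ≤ (Matrix.of fun i j => ff c (x i - y j)).det := by
    intro x y hx hy
    have h1 : (Matrix.of fun i j => ff c (x i - y j)) =
        Matrix.of fun i j => Real.exp ((Real.log (13 / 3) - 1) * x i) *
          (Matrix.of fun i j => Real.exp (-((Real.log (13 / 3) - 1) * y j)) *
            (Matrix.of fun i j => g (x i - y j)) i j) i j := by
      ext i j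
      simp only [Matrix.of_apply]
      rw [hc, ff_eq]
      have : Real.exp ((Real.log (13 / 3) - 1) * (x i - y j)) =
          Real.exp ((Real.log (13 / 3) - 1) * x i) *
            Real.exp (-((Real.log (13 / 3) - 1) * y j)) := by
        rw [← Real.exp_add]
        congr 1
        ring
      rw [this]
      ring
    rw [h1, Matrix.det_mul_column, Matrix.det_mul_row]
    exact mul_nonneg (Finset.prod_nonneg fun i _ => (Real.exp_pos _).le)
      (mul_nonneg (Finset.prod_nonneg fun i _ => (Real.exp_pos _).le) (hcon x y hx hy))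
  have hder : ∀ m x, HasDerivAt (iteratedDeriv m (ff c)) (iteratedDeriv (m + 1) (ff c) x) x := by
    intro m x
    rw [iteratedDeriv_succ]
    refine DifferentiableAt.hasDerivAt ?_
    exact ((ff_contDiff c).differentiable_iteratedDeriv m (by exact_mod_cast ENat.natCast_lt_top m)) x
  have h2 := conf_nonneg (n := 12) (fun m => iteratedDeriv m (ff c)) hder
    (by simpa using hpos) z0
  rw [sign_rev] at h2
  simp only [Units.val_one, Int.cast_one, one_mul] at h2
  have h3 : (Matrix.of fun i j : Fin 12 => iteratedDeriv ((i : ℕ) + (j : ℕ)) (ff c) z0) =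
      Matrix.of fun i j : Fin 12 => (1 / 13 ^ (i : ℕ) : ℝ) *
        (Matrix.of fun i j : Fin 12 => (ff c z0 / 13 ^ (j : ℕ)) *
          ((Matrix.of fun i j : Fin 12 => ml.getD ((i : ℕ) + (j : ℕ)) 0).map
            (Int.castRingHom ℝ)) i j) i j := by
    ext i j
    simp only [Matrix.of_apply, Matrix.map_apply]
    rw [ff_iter c _ (by omega)]
    rw [pow_add]
    simp only [eq_intCast]
    field_simp
  rw [h3, Matrix.det_mul_column, Matrix.det_mul_row] at h2
  have h4 : ((Matrix.of fun i j : Fin 12 => ml.getD ((i : ℕ) + (j : ℕ)) 0).map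
      (Int.castRingHom ℝ)).det < 0 := by
    have h5 := RingHom.map_det (Int.castRingHom ℝ)
      (Matrix.of fun i j : Fin 12 => ml.getD ((i : ℕ) + (j : ℕ)) 0)
    have h6 := det_neg
    have h7 : ((Matrix.of fun i j : Fin 12 => ml.getD ((i : ℕ) + (j : ℕ)) 0).map
      (Int.castRingHom ℝ)).det = (((Matrix.of fun i j : Fin 12 =>
        ml.getD ((i : ℕ) + (j : ℕ)) 0).det : ℤ) : ℝ) := h5.symm
    rw [h7]
    exact_mod_cast h6
  have hf0 : 0 < ff c z0 := by
    unfold ff
    exact mul_pos hc0 (Real.exp_pos _)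
  have h8 : 0 < ∏ i : Fin 12, (1 / 13 ^ (i : ℕ) : ℝ) := Finset.prod_pos fun i _ => by positivity
  have h9 : 0 < ∏ i : Fin 12, (ff c z0 / 13 ^ (i : ℕ) : ℝ) :=
    Finset.prod_pos fun i _ => by positivity
  have h10 := mul_neg_of_pos_of_neg h8 (mul_neg_of_pos_of_neg h9 h4)
  exact absurd h10 (not_lt.2 h2)

/-- The Gaussian half-factor `g` is not a Pólya frequency function of order `12`; in particular
it does not belong to `PF_∞`. -/
theorem result :
    (∃ x y : Fin 12 → ℝ, StrictMono x ∧ StrictMono y ∧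
      (Matrix.of fun i j => g (x i - y j)).det < 0) ∧
    ¬ IsPF 12 g ∧ ¬ IsPFInfinite g := by
  have h := exists_neg
  have h12 : ¬ IsPF 12 g := by
    intro hg
    obtain ⟨x, y, hx, hy, hd⟩ := h
    exact absurd hd (not_lt.2 (hg.2.2 12 le_rfl x y hx hy))
  exact ⟨h, h12, fun H => h12 (H 12 (by norm_num))⟩

end Pool.Agent.Results.MP_41e59c_pr.NotPF12
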